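import Pool.Agent.Helper49.LT.All

/-!
# Stability of order four of the covering density at the ellipses

The covering density `θ(K)` of a planar convex body `K` (congruent copies) is at most `2π/√27` (hand-in `Sharp`).
This file is the quantitative stability of the bound near the ellipses.

THEOREM. There are `ε, c > 0` such that for every planar convex body `K` with `E ⊆ K ⊆ (1 + ε) E` for some ellipse
`E` (the second ellipse is the homothetic copy of `E` about its centre): if `0 < δ ≤ 1` and there is no ellipse `E'`
with `E' ⊆ K ⊆ (1 + δ) E'`, then `θ(K) ≤ (2π/√27) / (1 + c δ⁴)`.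

No symmetry of `K` is assumed. Ellipses are written as the images of the unit disk under the maps
`z ↦ α z + β z̄ + b` with `‖β‖ < ‖α‖` (the orientation preserving affine maps of the plane).

Proof. A hexagon inscribed in `K` with two parallel sides of equal length gives a covering of the plane by
translates of `K` and `-K` of density `|K| / |hexagon|` (Kuperberg's double lattices); this bound is invariant under
affine maps. The second order terms of the area of the best hexagon vanish for the perturbations of the disk by the third
harmonic (for the support function), so an expansion of order four is needed: `K` is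
written over the curve `t ↦ e^{it} + x₁ e^{-2it} + x₂ e^{-4it}`, where `x` is given by the moments
`∫_K z³`, `∫_K z⁵` (and `∫_K z = ∫_K z² = 0` after an affine map). If all hexagons are small, the sum of the support
function and of the height of the extreme chord of length `√3` is small in the mean, and also in the weighted means with the
weights `1 + Re (ω e^{-6iu})` and `1 + Re (ω e^{-10iu})`. The base curve alone gives the term
`(117π/2) |x₁|⁴ > 0`; the interaction of the base curve and of the rest cancels up to the third
order; the quadratic form of the rest is positive up to finitely many harmonics, which are controlled by the moments and by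
the weighted means.
-/

set_option autoImplicit false

open MeasureTheory Set Metric

namespace Pool.Agent.Results.MP_b21509_co.NearEllipses

open Helper97.CB

theorem result : ∃ ε c : ℝ, 0 < ε ∧ 0 < c ∧
    ∀ (K : Set ℂ) (α β b : ℂ), IsBody K → ‖β‖ < ‖α‖ →
    (fun z : ℂ => α * z + β * (starRingEnd ℂ) z + b) '' closedBall 0 1 ⊆ K →
    K ⊆ (fun z : ℂ => α * z + β * (starRingEnd ℂ) z + b) '' closedBall 0 (1 + ε) →
    ∀ δ : ℝ, 0 < δ → δ ≤ 1 →
      (∀ α' β' b' : ℂ, ‖β'‖ < ‖α'‖ →
        (fun z : ℂ => α' * z + β' * (starRingEnd ℂ) z + b') '' closedBall 0 1 ⊆ K →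
        ¬ K ⊆ (fun z : ℂ => α' * z + β' * (starRingEnd ℂ) z + b') '' closedBall 0 (1 + δ)) →
      theta K ≤ ENNReal.ofReal (2 * Real.pi / Real.sqrt 27 / (1 + c * δ ^ 4)) := by
  obtain ⟨ε, c, hε, hc, h⟩ := Helper49.LT.stMai
  refine ⟨ε, c, hε, hc, ?_⟩
  intro K α β b hK hαβ hin hout
  obtain ⟨_, h2⟩ := h K α β b hK hαβ hin hout
  have e1 : 1 / Helper49.LT.m0 = 2 * Real.pi / Real.sqrt 27 := by
    have h27 : Real.sqrt 27 = 3 * Real.sqrt 3 := by
      rw [show (27 : ℝ) = 3 ^ 2 * 3 by norm_num, Real.sqrt_mul (by norm_num),
        Real.sqrt_sq (by norm_num)]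
    rw [h27, Helper49.LT.m0]
    have hp := Real.pi_pos
    have hs : 0 < Real.sqrt 3 := Real.sqrt_pos.2 (by norm_num)
    field_simp
  intro δ h0 h3 hno
  have h4 := h2 δ ⟨h0.le, h3⟩ hno
  have e2 : 1 / (Helper49.LT.m0 * (1 + c * δ ^ 4)) =
      2 * Real.pi / Real.sqrt 27 / (1 + c * δ ^ 4) := by
    rw [← e1, div_div]
  rw [← e2]; exact h4

end Pool.Agent.Results.MP_b21509_co.NearEllipses
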