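import Pool.Agent.Helper70.SH.Final

/-!
# The maximal covering density of planar convex bodies is the density of the thinnest circle covering

THEOREM. Every planar convex body `K` has covering density `θ(K) ≤ 2π/√27`, and the circular disk attains this value.

Proof. (1) A hexagon inscribed in `K` with two parallel sides of equal length gives a covering of the plane by
translates of `K` and `-K` of density `|K| / |hexagon|` (Kuperberg's double lattices). If all such hexagons of `K`
have area at most `3√3 M`, then for every direction `t` there are an affine regular hexagon in the direction `t`
(a point `β(t)` of the hyperbolic plane) and a translation vector `v(t)` of its middle diagonals such that the mean of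
the support function of `K` at the six sides of the hexagon is small, by a continuity and degree argument.
(2) Integration over all directions and Minkowski's inequality (with the second harmonic removed by an affine
normalisation of `K`) reduce the theorem to an inequality (`Rq 2 1` in the files) for all pairs of bounded functions
`(β, v)` of the direction.
(3) Let `A`, `B` be the coefficients of the frequencies `-3`, `-5` of `v` in the moving frame. Far from the hexagonal
family the inequality is elementary. Near it, one has `|A|² + |B|² < (73/100)²`, and for every `(A, B)` the functional
is bounded from below by a quadratic form in the Fourier coefficients, for a choice of a certificate (a weight,
a shift, alignments of the angles, base functions, multipliers). The local part of the bound is a polynomial inequality in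
four variables, proved by a subdivision into boxes. Zone I (`|A| + (8/5)|B| ≤ 1/12`): expansion of all the terms
at the disk. Zone II: 79 certificates (53 for `|B| ≤ 2|A|`, 26 for `|B| ≥ 2|A|`); for each of them the positivity of
the quadratic form is proved by an exact treatment of the low frequencies (a matrix of integers and its Cholesky decomposition) and an estimate of
the high ones; finitely many quadratic polynomials in `(A, B)` cover the zone. All these checks are made in the kernel.
-/

set_option autoImplicit false

open MeasureTheory Set Metric

namespace Pool.Agent.Results.MP_b21509_co.Sharp

open Helper97.CB

/-- The maximum of the covering densities of the planar convex bodies is `2π/√27`, and it is the covering density of the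
circular disk. -/
theorem result : IsGreatest {d | ∃ K : Set ℂ, IsBody K ∧ d = theta K}
      (ENNReal.ofReal (2 * Real.pi / Real.sqrt 27)) ∧
    theta (closedBall (0 : ℂ) 1) = ENNReal.ofReal (2 * Real.pi / Real.sqrt 27) :=
  Helper70.SH.sharp_ball

end Pool.Agent.Results.MP_b21509_co.Sharp
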